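import Mathlib
import Pool.Agent.Results.MP_bfe3ea_gt.VinbergCone
import Pool.Agent.Y106.LPI.QDeg

/-!
# Locally polynomially integrable convex hypersurfaces: counterexamples in every odd dimension

In dimension three the example is the surface `z = (x - y ^ 2) ^ 2 + y ^ 2` over a small square:
in the coordinates `(u, y)` with `u = x - y ^ 2`, which preserve area, all the regions cut out
of the parameter plane by tangent planes shifted upwards are ellipses, of area exactly
proportional to the height. In dimension `n` the example is the graph of `∑ u_i ^ 2`, where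
`u_i = x_i - u_{i+1} ^ 2`, over a small cube.
-/

open MeasureTheory Set Topology

namespace Pool.Agent.Results.MP_bfe3ea_gt.EveryOddDimension

open Pool.Agent.Results.MP_bfe3ea_gt.VinbergCone (E IsSmoothStrictlyConvexHypersurface
  LocallyPolynomiallyIntegrable)

/-- In every Euclidean space of odd dimension `n ≥ 3` there is a smooth, strictly convex, locally
polynomially integrable hypersurface `M` such that the least total degree of a nonzero real
polynomial vanishing on `M` is `2 ^ (n - 1)`; in particular `M` lies in no quadric. -/
theorem result : ∀ n : ℕ, Odd n → 3 ≤ n → ∃ M : Set (E n),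
    IsSmoothStrictlyConvexHypersurface M ∧ LocallyPolynomiallyIntegrable M ∧
    IsLeast {d : ℕ | ∃ Q : MvPolynomial (Fin n) ℝ, Q ≠ 0 ∧ Q.totalDegree = d ∧
      ∀ x ∈ M, MvPolynomial.eval (fun i => x i) Q = 0} (2 ^ (n - 1)) := by
  intro n hn h3
  obtain ⟨k, hk⟩ := hn
  subst hk
  have hG := Y106.LPI.lgood_fq k (r := 2 * k) rfl
  have h2 : 2 * k + 1 - 1 = 2 * k := by omega
  rw [h2]
  exact ⟨Y106.LPI.Mq (2 * k), hG.smooth_convex _, hG.lpi _,
    Y106.LPI.isLeast_degree_q (by omega)⟩

end Pool.Agent.Results.MP_bfe3ea_gt.EveryOddDimension
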