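import Mathlib
import Pool.Agent.Results.MP_bfe3ea_gt.VinbergCone
import Pool.Agent.Y106.LPI.Deg

/-!
# Closed locally polynomially integrable convex hypersurfaces of high degree

In `ℝ^(2 r + 1)` the graph of
`z = 1 / ∏ s_i ^ (2 ^ i) + ∑ 2 ^ i * p_i ^ 2 / s_i` over `s_i > 0` (`i = 0, ..., r - 1`)
is a closed, smooth, strictly convex, locally polynomially integrable hypersurface, and the least
degree of a nonzero polynomial vanishing on it is `2 ^ r`.
-/

open MeasureTheory Set Topology

namespace Pool.Agent.Results.MP_bfe3ea_gt.HighDegree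

open Pool.Agent.Results.MP_bfe3ea_gt.VinbergCone (E IsSmoothStrictlyConvexHypersurface
  LocallyPolynomiallyIntegrable)

/-- For every `r ≥ 2` there is, in the Euclidean space of dimension `2 r + 1`, a closed, smooth,
strictly convex, locally polynomially integrable hypersurface `M` such that the least total degree
of a nonzero real polynomial vanishing on `M` is `2 ^ r`. -/
theorem result : ∀ r : ℕ, 2 ≤ r → ∃ M : Set (E (2 * r + 1)), IsClosed M ∧
    IsSmoothStrictlyConvexHypersurface M ∧ LocallyPolynomiallyIntegrable M ∧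
    IsLeast {d : ℕ | ∃ Q : MvPolynomial (Fin (2 * r + 1)) ℝ, Q ≠ 0 ∧ Q.totalDegree = d ∧
      ∀ x ∈ M, MvPolynomial.eval (fun i => x i) Q = 0} (2 ^ r) := by
  intro r _
  have i1 : (volume : Measure (ℝ × ℝ)).IsAddHaarMeasure :=
    Measure.prod.instIsAddHaarMeasure volume volume
  have i2 : (volume : Measure (Y106.LPI.X r)).IsAddHaarMeasure :=
    Measure.pi.isAddHaarMeasure (fun _ : Fin r => (volume : Measure (ℝ × ℝ)))
  have hG := Y106.LPI.good_ff r
  exact ⟨Y106.LPI.Mr r, hG.isClosed_M, hG.smooth_convex _, hG.lpi _, Y106.LPI.isLeast_degree⟩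

end Pool.Agent.Results.MP_bfe3ea_gt.HighDegree
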